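import Pool.Agent.Helper60.UG.Mean
import Pool.Agent.Helper69.UG.Defs

/-!
# UG R7, R8, R9: moments of the resonator
-/

set_option autoImplicit false
open MeasureTheory Set Filter Topology
open Pool.Agent.Helper57.Zeta Pool.Agent.Helper57.LH Pool.Agent.Helper57.ED Pool.Agent.Helper54.LG
open Pool.Agent.Helper69.UG

namespace Pool.Agent.Helper60.UG

/-- square of the modulus of a finite trigonometric sum. -/
theorem norm_sq_sum {ι : Type*} (S : Finset ι) (a θ : ι → ℝ) :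
    ‖∑ i ∈ S, (a i : ℂ) * Complex.exp (θ i * Complex.I)‖ ^ 2 =
      ∑ q ∈ S ×ˢ S, a q.1 * a q.2 * Real.cos (θ q.1 - θ q.2) := by
  have hre : (∑ i ∈ S, (a i : ℂ) * Complex.exp (θ i * Complex.I)).re = ∑ i ∈ S, a i * Real.cos (θ i) := by
    rw [Complex.re_sum]
    exact Finset.sum_congr rfl fun i _ => by rw [Complex.re_ofReal_mul, Complex.exp_ofReal_mul_I_re]
  have him : (∑ i ∈ S, (a i : ℂ) * Complex.exp (θ i * Complex.I)).im = ∑ i ∈ S, a i * Real.sin (θ i) := by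
    rw [Complex.im_sum]
    exact Finset.sum_congr rfl fun i _ => by rw [Complex.im_ofReal_mul, Complex.exp_ofReal_mul_I_im]
  rw [← Complex.normSq_eq_norm_sq, Complex.normSq_apply, hre, him, Finset.sum_mul_sum, Finset.sum_mul_sum,
    Finset.sum_product, ← Finset.sum_add_distrib]
  refine Finset.sum_congr rfl fun i _ => ?_
  rw [← Finset.sum_add_distrib]
  refine Finset.sum_congr rfl fun j _ => ?_
  rw [Real.cos_sub]
  ring

/-- a term of the resonator. -/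
lemma term_eq (T c v t : ℝ) {n : ℕ} (hn : 1 ≤ n) :
    (rr T c v n : ℂ) * (n : ℂ) ^ (-((1 / 2 : ℂ) + (t : ℂ) * Complex.I)) =
      ((rr T c v n / √n : ℝ) : ℂ) * Complex.exp (((-(t * Real.log n) : ℝ) : ℂ) * Complex.I) := by
  have hn0 : (n : ℂ) ≠ 0 := by exact_mod_cast (by omega : n ≠ 0)
  have hnR : (0:ℝ) < n := by exact_mod_cast hn
  rw [Complex.cpow_def_of_ne_zero hn0, ← Complex.natCast_log]
  have e1 : (Real.log n : ℂ) * -((1 / 2 : ℂ) + (t : ℂ) * Complex.I) =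
      ((-(Real.log n / 2) : ℝ) : ℂ) + ((-(t * Real.log n) : ℝ) : ℂ) * Complex.I := by
    push_cast
    ring
  rw [e1, Complex.exp_add, ← Complex.ofReal_exp]
  have e2 : Real.exp (-(Real.log n / 2)) = 1 / √n := by
    rw [Real.exp_neg, ← Real.log_sqrt hnR.le, Real.exp_log (Real.sqrt_pos.mpr hnR), one_div]
  rw [e2]
  push_cast
  ring

theorem RR_eq (T c v t : ℝ) : RR T c v t = ∑ n ∈ Finset.Icc 1 (NR T),
    ((rr T c v n / √n : ℝ) : ℂ) * Complex.exp (((-(t * Real.log n) : ℝ) : ℂ) * Complex.I) := by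
  unfold RR
  exact Finset.sum_congr rfl fun n hn => term_eq T c v t (Finset.mem_Icc.mp hn).1

theorem RR_sq (T c v t : ℝ) : ‖RR T c v t‖ ^ 2 = ∑ q ∈ Finset.Icc 1 (NR T) ×ˢ Finset.Icc 1 (NR T),
    rr T c v q.1 / √q.1 * (rr T c v q.2 / √q.2) * Real.cos ((Real.log q.1 - Real.log q.2) * t + 0) := by
  rw [RR_eq, norm_sq_sum]
  refine Finset.sum_congr rfl fun q _ => ?_
  rw [← Real.cos_neg]
  congr 2
  ring

theorem RR_cont (T c v : ℝ) : Continuous (RR T c v) := by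
  have : RR T c v = fun t => ∑ n ∈ Finset.Icc 1 (NR T),
    ((rr T c v n / √n : ℝ) : ℂ) * Complex.exp (((-(t * Real.log n) : ℝ) : ℂ) * Complex.I) := funext fun t => RR_eq T c v t
  rw [this]
  fun_prop

/-- growth. -/
lemma growth : ∃ T0 : ℝ, 1 ≤ T0 ∧ ∀ T : ℝ, T0 ≤ T → T ^ 4 * Real.exp (-(T ^ (1 / 2 : ℝ))) ≤ 1 / T := by
  have h := (Real.tendsto_pow_mul_exp_neg_atTop_nhds_zero 10).comp (tendsto_rpow_atTop (show (0:ℝ) < 1 / 2 by norm_num))
  have h2 := h.eventually (eventually_le_nhds (show (0:ℝ) < 1 by norm_num))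
  obtain ⟨T0, hT0⟩ := (h2.and (eventually_ge_atTop 1)).exists_forall_of_atTop
  refine ⟨max T0 1, le_max_right _ _, fun T hT => ?_⟩
  obtain ⟨h3, h4⟩ := hT0 T (le_trans (le_max_left _ _) hT)
  have hT1 : (0:ℝ) < T := by linarith
  have h5 : (T ^ (1 / 2 : ℝ)) ^ 10 = T ^ 5 := by
    rw [← Real.rpow_natCast, ← Real.rpow_mul hT1.le]
    norm_num
  simp only [Function.comp] at h3
  rw [h5] at h3
  rw [le_div_iff₀ hT1]
  calc T ^ 4 * Real.exp (-(T ^ (1 / 2 : ℝ))) * T = T ^ 5 * Real.exp (-(T ^ (1 / 2 : ℝ))) := by ring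
    _ ≤ 1 := h3

/-- the error term of `mean_cos` for the lengths used here. -/
lemma exp_WW {T : ℝ} (hT : 1 ≤ T) {N : ℕ} (hN1 : 1 ≤ N) (hN : (N : ℝ) ≤ T ^ (1 / 4 : ℝ)) :
    Real.exp (-(WW T / N)) ≤ Real.exp (-(T ^ (1 / 2 : ℝ))) := by
  have hT0 : 0 < T := by linarith
  have hNR : (0:ℝ) < N := by exact_mod_cast hN1
  apply Real.exp_le_exp.mpr
  apply neg_le_neg
  rw [le_div_iff₀ hNR]
  calc T ^ (1 / 2 : ℝ) * N ≤ T ^ (1 / 2 : ℝ) * T ^ (1 / 4 : ℝ) := by gcongr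
    _ = T ^ (3 / 4 : ℝ) := by rw [← Real.rpow_add hT0]; norm_num
    _ ≤ WW T := by
        unfold WW
        exact Real.rpow_le_rpow_of_exponent_le hT (by norm_num)

lemma WW_pos {T : ℝ} (hT : 0 < T) : 0 < WW T := by unfold WW; positivity

lemma NR_le {T : ℝ} (hT : 0 ≤ T) : (NR T : ℝ) ≤ T ^ (1 / 8 : ℝ) := Nat.floor_le (by positivity)

lemma one_le_NR {T : ℝ} (hT : 1 ≤ T) : 1 ≤ NR T := by
  unfold NR
  rw [Nat.one_le_floor_iff]
  exact Real.one_le_rpow hT (by norm_num)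

/-- the sum of the coefficients. -/
lemma sumA {T c v : ℝ} (hT : 1 ≤ T) (h : ∀ n, |rr T c v n| ≤ T ^ (1 / 192 : ℝ)) :
    ∑ n ∈ Finset.Icc 1 (NR T), |rr T c v n / √n| ≤ T := by
  have hT0 : 0 < T := by linarith
  calc ∑ n ∈ Finset.Icc 1 (NR T), |rr T c v n / √n| ≤ ∑ n ∈ Finset.Icc 1 (NR T), T ^ (1 / 192 : ℝ) := by
        refine Finset.sum_le_sum fun n hn => ?_
        have hn1 : (1:ℝ) ≤ n := by exact_mod_cast (Finset.mem_Icc.mp hn).1
        rw [abs_div, abs_of_nonneg (Real.sqrt_nonneg _)]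
        refine (div_le_self (abs_nonneg _) ?_).trans (h n)
        exact Real.one_le_sqrt.mpr hn1
    _ = NR T * T ^ (1 / 192 : ℝ) := by rw [Finset.sum_const, Nat.card_Icc, nsmul_eq_mul]; simp
    _ ≤ T ^ (1 / 8 : ℝ) * T ^ (1 / 192 : ℝ) := by gcongr; exact NR_le hT0.le
    _ = T ^ (1 / 8 + 1 / 192 : ℝ) := by rw [← Real.rpow_add hT0]
    _ ≤ T ^ (1 : ℝ) := Real.rpow_le_rpow_of_exponent_le hT (by norm_num)
    _ = T := Real.rpow_one T

/-- R1, R2 in the form used here. -/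
def Rbd : Prop := ∃ c0 T0 : ℝ, ∀ T, T0 ≤ T → ∀ c, Adm c0 T c → ∀ v : ℝ, v ^ 2 = c / 100 → ∀ n,
    |rr T c v n| ≤ T ^ (1 / 192 : ℝ) ∧ 1 ≤ VV T c v

def Rsupp : Prop := ∀ {T c v : ℝ}, 1 ≤ T → 0 < c → ∀ {n : ℕ}, rr T c v n ≠ 0 → 1 ≤ n ∧ n ≤ NR T ∧ Squarefree n

/-- R8: mass -/
theorem wmass_of (hR : Rbd) : ∃ c0 T0 : ℝ, ∀ T, T0 ≤ T → ∀ c, Adm c0 T c → ∀ v : ℝ, v ^ 2 = c / 100 → ∀ τ : ℝ,
    Integrable (wt T c v τ) ∧ |(∫ t, wt T c v τ t) - VV T c v| ≤ VV T c v / T := by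
  obtain ⟨c0, T0, hR⟩ := hR
  obtain ⟨T1, hT1, hg⟩ := growth
  refine ⟨c0, max T0 T1, fun T hT c hc v hv τ => ?_⟩
  have hTT : 1 ≤ T := hT1.trans ((le_max_right _ _).trans hT)
  have hT0' : 0 < T := by linarith
  have hr := hR T ((le_max_left _ _).trans hT) c hc v hv
  have hV := (hr 0).2
  have hm := mean_cos (Finset.Icc 1 (NR T) ×ˢ Finset.Icc 1 (NR T))
    (fun q => rr T c v q.1 / √q.1 * (rr T c v q.2 / √q.2)) (fun _ => 0) (fun q => q.1) (fun q => q.2) (N := NR T)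
    (fun q hq => Finset.mem_Icc.mp (Finset.mem_product.mp hq).1) (fun q hq => Finset.mem_Icc.mp (Finset.mem_product.mp hq).2)
    (WW_pos hT0') τ
  have e : (fun t => PW (WW T) (t - τ) * ∑ q ∈ Finset.Icc 1 (NR T) ×ˢ Finset.Icc 1 (NR T),
      rr T c v q.1 / √q.1 * (rr T c v q.2 / √q.2) * Real.cos ((Real.log q.1 - Real.log q.2) * t + 0)) = wt T c v τ := by
    funext t
    rw [← RR_sq]
    rfl
  rw [e] at hm
  refine ⟨hm.1, ?_⟩
  have hd : ∑ q ∈ Finset.Icc 1 (NR T) ×ˢ Finset.Icc 1 (NR T), (if q.1 = q.2 then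
      rr T c v q.1 / √q.1 * (rr T c v q.2 / √q.2) * Real.cos 0 else 0) = VV T c v := by
    rw [Finset.sum_product]
    unfold VV
    refine Finset.sum_congr rfl fun n hn => ?_
    have hn1 : (0:ℝ) < n := by exact_mod_cast (Finset.mem_Icc.mp hn).1
    simp only
    rw [Finset.sum_ite_eq, if_pos hn, Real.cos_zero, mul_one, div_mul_div_comm, Real.mul_self_sqrt hn1.le, sq]
  have hs : ∑ q ∈ Finset.Icc 1 (NR T) ×ˢ Finset.Icc 1 (NR T), |rr T c v q.1 / √q.1 * (rr T c v q.2 / √q.2)| =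
      (∑ n ∈ Finset.Icc 1 (NR T), |rr T c v n / √n|) ^ 2 := by
    rw [sq, Finset.sum_mul_sum, Finset.sum_product]
    exact Finset.sum_congr rfl fun n _ => Finset.sum_congr rfl fun m _ => abs_mul _ _
  have h2 := hm.2
  rw [hd, hs] at h2
  have h3 := sumA hTT (fun n => (hr n).1)
  have h4 : 0 ≤ ∑ n ∈ Finset.Icc 1 (NR T), |rr T c v n / √n| := Finset.sum_nonneg fun _ _ => abs_nonneg _
  have h5 : (NR T : ℝ) ≤ T ^ (1 / 4 : ℝ) :=
    (NR_le hT0'.le).trans (Real.rpow_le_rpow_of_exponent_le hTT (by norm_num))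
  have h6 := exp_WW hTT (one_le_NR hTT) h5
  have h7 := hg T ((le_max_right _ _).trans hT)
  have h8 : T ^ 2 ≤ T ^ 4 := pow_le_pow_right₀ hTT (by norm_num)
  calc |(∫ t, wt T c v τ t) - VV T c v| ≤ (∑ n ∈ Finset.Icc 1 (NR T), |rr T c v n / √n|) ^ 2 * Real.exp (-(WW T / NR T)) := h2
    _ ≤ T ^ 2 * Real.exp (-(T ^ (1 / 2 : ℝ))) := by gcongr
    _ ≤ T ^ 4 * Real.exp (-(T ^ (1 / 2 : ℝ))) := by gcongr
    _ ≤ 1 / T := h7
    _ ≤ VV T c v / T := by gcongr

/-- a term of the diagonal in R9. -/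
lemma diag_term (hS : Rsupp) {T c v : ℝ} (hT : 1 ≤ T) (hc : 0 < c) {n m : ℕ} (hn : 1 ≤ n) (hm : 1 ≤ m) (C : ℝ) :
    (if m * n ∈ Finset.Icc 1 (NR T) then rr T c v m / √m * (rr T c v (m * n) / √((m * n : ℕ) : ℝ)) / 2 * C else 0) =
      rr T c v m * rr T c v (n * m) / m / √n / 2 * C := by
  have hmR : (0:ℝ) < m := by exact_mod_cast hm
  have hnR : (0:ℝ) < n := by exact_mod_cast hn
  rw [mul_comm n m]
  split_ifs with h
  · rw [Nat.cast_mul, Real.sqrt_mul hmR.le]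
    have h1 : √(m:ℝ) * √(m:ℝ) = m := Real.mul_self_sqrt hmR.le
    have h2 : 0 < √(m:ℝ) := Real.sqrt_pos.mpr hmR
    have h3 : 0 < √(n:ℝ) := Real.sqrt_pos.mpr hnR
    have h4 : rr T c v m / √m * (rr T c v (m * n) / (√m * √n)) = rr T c v m * rr T c v (m * n) / (√m * √m) / √n := by
      field_simp
    rw [h4, h1]
  · have : rr T c v (m * n) = 0 := by
      by_contra hne
      obtain ⟨h1, h2, _⟩ := hS hT hc hne
      exact h (Finset.mem_Icc.mpr ⟨h1, h2⟩)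
    rw [this]
    simp

/-- `r(mn) = 0` if `n` is a prime power, not a prime of the resonator. -/
lemma rr_pp {T c v : ℝ} {n m : ℕ} (hn : IsPrimePow n) (hnP : n ∉ PR T c) : rr T c v (n * m) = 0 := by
  unfold rr
  rw [if_neg]
  rintro ⟨h1, h2, _⟩
  have h3 : Squarefree n := h1.squarefree_of_dvd (Dvd.intro _ rfl)
  obtain ⟨p, k, hp, hk, rfl⟩ := hn
  have hp' : p.Prime := hp.nat_prime
  have hk1 : k = 1 := by
    by_contra hne
    have h4 : p * p ∣ p ^ k := by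
      rw [← sq]
      exact pow_dvd_pow p (by omega)
    have := h3 p h4
    exact hp'.one_lt.ne' (Nat.isUnit_iff.mp this)
  rw [hk1, pow_one] at hnP h1 h2
  exact hnP (h2 (Nat.mem_primeFactors.mpr ⟨hp', Dvd.intro _ rfl, h1.ne_zero⟩))

/-- R9: mean of a cosine -/
theorem ecos_of (hR : Rbd) (hS : Rsupp) : ∃ c0 T0 : ℝ, ∀ T, T0 ≤ T → ∀ c, Adm c0 T c → ∀ v : ℝ, v ^ 2 = c / 100 →
    ∀ τ u : ℝ, ∀ n : ℕ, IsPrimePow n → (n : ℝ) ≤ Real.exp (XX T c) →
    |(∫ t, wt T c v τ t * Real.cos ((t + u) * Real.log n)) -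
      (if n ∈ PR T c then Pool.Agent.Helper69.UG.WP T c v n / √n * Real.cos (u * Real.log n) else 0)| ≤ 1 / T := by
  obtain ⟨c0, T0, hR⟩ := hR
  obtain ⟨T1, hT1, hg⟩ := growth
  refine ⟨max c0 8, max T0 T1, fun T hT c hc v hv τ u n hn hnX => ?_⟩
  have hTT : 1 ≤ T := hT1.trans ((le_max_right _ _).trans hT)
  have hT0' : 0 < T := by linarith
  have hc8 : 8 ≤ c := (le_max_right _ _).trans hc.1
  have hc0 : 0 < c := by linarith
  have hr := hR T ((le_max_left _ _).trans hT) c ⟨(le_max_left _ _).trans hc.1, hc.2⟩ v hv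
  have hn1 : 1 ≤ n := hn.one_lt.le
  have hnR : (1:ℝ) ≤ n := by exact_mod_cast hn1
  set N := NR T with hN
  have hN1 : 1 ≤ N := one_le_NR hTT
  have hnT : (n : ℝ) ≤ T ^ (1 / 8 : ℝ) := by
    refine hnX.trans ?_
    rw [Real.rpow_def_of_pos hT0']
    apply Real.exp_le_exp.mpr
    unfold XX
    rw [div_eq_mul_one_div]
    exact mul_le_mul_of_nonneg_left (one_div_le_one_div_of_le (by norm_num) hc8) (Real.log_nonneg hTT)
  have hM : ((N * n : ℕ) : ℝ) ≤ T ^ (1 / 4 : ℝ) := by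
    rw [Nat.cast_mul]
    calc (N : ℝ) * n ≤ T ^ (1 / 8 : ℝ) * T ^ (1 / 8 : ℝ) := mul_le_mul (NR_le hT0'.le) hnT (by positivity) (by positivity)
      _ = T ^ (1 / 4 : ℝ) := by rw [← Real.rpow_add hT0']; norm_num
  have hM1 : 1 ≤ N * n := Nat.mul_pos hN1 hn1
  set S := Finset.Icc 1 N ×ˢ Finset.Icc 1 N with hSdef
  set a : ℕ → ℝ := fun m => rr T c v m / √m with ha
  have hle : N ≤ N * n := Nat.le_mul_of_pos_right _ hn1
  have b1 : ∀ q ∈ S, 1 ≤ q.1 ∧ q.1 ≤ N * n := fun q hq => by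
    have := Finset.mem_Icc.mp (Finset.mem_product.mp hq).1
    exact ⟨this.1, this.2.trans hle⟩
  have b2 : ∀ q ∈ S, 1 ≤ q.2 ∧ q.2 ≤ N * n := fun q hq => by
    have := Finset.mem_Icc.mp (Finset.mem_product.mp hq).2
    exact ⟨this.1, this.2.trans hle⟩
  have b3 : ∀ q ∈ S, 1 ≤ q.1 * n ∧ q.1 * n ≤ N * n := fun q hq => by
    have := Finset.mem_Icc.mp (Finset.mem_product.mp hq).1
    exact ⟨Nat.mul_pos this.1 hn1, Nat.mul_le_mul_right _ this.2⟩
  have b4 : ∀ q ∈ S, 1 ≤ q.2 * n ∧ q.2 * n ≤ N * n := fun q hq => by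
    have := Finset.mem_Icc.mp (Finset.mem_product.mp hq).2
    exact ⟨Nat.mul_pos this.1 hn1, Nat.mul_le_mul_right _ this.2⟩
  have m1 := mean_cos S (fun q => a q.1 * a q.2 / 2) (fun _ => u * Real.log n) (fun q => q.1 * n) (fun q => q.2)
    b3 b2 (WW_pos hT0') τ
  have m2 := mean_cos S (fun q => a q.1 * a q.2 / 2) (fun _ => -(u * Real.log n)) (fun q => q.1) (fun q => q.2 * n)
    b1 b4 (WW_pos hT0') τ
  have e : (fun t => wt T c v τ t * Real.cos ((t + u) * Real.log n)) = fun t =>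
      PW (WW T) (t - τ) * ∑ q ∈ S, a q.1 * a q.2 / 2 *
        Real.cos ((Real.log ((q.1 * n : ℕ) : ℝ) - Real.log q.2) * t + u * Real.log n) +
      PW (WW T) (t - τ) * ∑ q ∈ S, a q.1 * a q.2 / 2 *
        Real.cos ((Real.log q.1 - Real.log ((q.2 * n : ℕ) : ℝ)) * t + -(u * Real.log n)) := by
    funext t
    unfold wt
    rw [RR_sq, ← mul_add, mul_assoc, ← Finset.sum_add_distrib, Finset.sum_mul]
    congr 1
    refine Finset.sum_congr rfl fun q hq => ?_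
    have q1 : (0:ℝ) < q.1 := by exact_mod_cast (b1 q hq).1
    have q2 : (0:ℝ) < q.2 := by exact_mod_cast (b2 q hq).1
    rw [Nat.cast_mul, Nat.cast_mul, Real.log_mul q1.ne' (by positivity), Real.log_mul q2.ne' (by positivity)]
    simp only [ha]
    have c1 := Real.cos_add ((Real.log q.1 - Real.log q.2) * t) ((t + u) * Real.log n)
    have c2 := Real.cos_sub ((Real.log q.1 - Real.log q.2) * t) ((t + u) * Real.log n)
    rw [show (Real.log q.1 + Real.log n - Real.log q.2) * t + u * Real.log n =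
      (Real.log q.1 - Real.log q.2) * t + (t + u) * Real.log n by ring,
      show (Real.log q.1 - (Real.log q.2 + Real.log n)) * t + -(u * Real.log n) =
      (Real.log q.1 - Real.log q.2) * t - (t + u) * Real.log n by ring, c1, c2, add_zero]
    ring
  rw [e, integral_add m1.1 m2.1]
  have d1 : ∑ q ∈ S, (if q.1 * n = q.2 then a q.1 * a q.2 / 2 * Real.cos (u * Real.log n) else 0) =
      (if n ∈ PR T c then Pool.Agent.Helper69.UG.WP T c v n / √n * Real.cos (u * Real.log n) else 0) / 2 := by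
    have e1 : ∑ q ∈ S, (if q.1 * n = q.2 then a q.1 * a q.2 / 2 * Real.cos (u * Real.log n) else 0) =
        ∑ m ∈ Finset.Icc 1 N, rr T c v m * rr T c v (n * m) / m / √n / 2 * Real.cos (u * Real.log n) := by
      rw [hSdef, Finset.sum_product]
      refine Finset.sum_congr rfl fun m hm => ?_
      simp only
      rw [Finset.sum_ite_eq]
      exact diag_term hS hTT hc0 hn1 (Finset.mem_Icc.mp hm).1 _
    rw [e1]
    split_ifs with hP
    · unfold Pool.Agent.Helper69.UG.WP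
      rw [Finset.sum_div, Finset.sum_mul, Finset.sum_div]
      exact Finset.sum_congr rfl fun m _ => by ring
    · rw [zero_div]
      refine Finset.sum_eq_zero fun m _ => ?_
      rw [rr_pp hn hP]
      simp
  have d2 : ∑ q ∈ S, (if q.1 = q.2 * n then a q.1 * a q.2 / 2 * Real.cos (-(u * Real.log n)) else 0) =
      (if n ∈ PR T c then Pool.Agent.Helper69.UG.WP T c v n / √n * Real.cos (u * Real.log n) else 0) / 2 := by
    rw [← d1, hSdef, Finset.sum_product, Finset.sum_product_right]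
    refine Finset.sum_congr rfl fun m _ => Finset.sum_congr rfl fun m' _ => ?_
    simp only [Real.cos_neg]
    by_cases h : m' * n = m
    · rw [if_pos h, if_pos h.symm]
      ring
    · rw [if_neg h, if_neg (fun h' => h h'.symm)]
  have hs : ∑ q ∈ S, |a q.1 * a q.2 / 2| ≤ T ^ 2 / 2 := by
    have h1 : ∑ q ∈ S, |a q.1 * a q.2 / 2| = (∑ n ∈ Finset.Icc 1 N, |a n|) ^ 2 / 2 := by
      rw [sq, Finset.sum_mul_sum, hSdef, Finset.sum_product, Finset.sum_div]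
      refine Finset.sum_congr rfl fun n _ => ?_
      rw [Finset.sum_div]
      exact Finset.sum_congr rfl fun m _ => by rw [abs_div, abs_mul, abs_of_pos (show (0:ℝ) < 2 by norm_num)]
    rw [h1]
    have h3 := sumA hTT (fun n => (hr n).1)
    have h4 : 0 ≤ ∑ n ∈ Finset.Icc 1 N, |a n| := Finset.sum_nonneg fun _ _ => abs_nonneg _
    gcongr
  have h6 := exp_WW hTT hM1 hM
  have h7 := hg T ((le_max_right _ _).trans hT)
  have h8 : T ^ 2 ≤ T ^ 4 := pow_le_pow_right₀ hTT (by norm_num)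
  have k1 := m1.2
  have k2 := m2.2
  rw [d1] at k1
  rw [d2] at k2
  have h9 : (∑ q ∈ S, |a q.1 * a q.2 / 2|) * Real.exp (-(WW T / ((N * n : ℕ) : ℝ))) ≤ 1 / T / 2 := by
    calc (∑ q ∈ S, |a q.1 * a q.2 / 2|) * Real.exp (-(WW T / ((N * n : ℕ) : ℝ))) ≤
        T ^ 2 / 2 * Real.exp (-(T ^ (1 / 2 : ℝ))) := by gcongr
      _ ≤ T ^ 4 / 2 * Real.exp (-(T ^ (1 / 2 : ℝ))) := by gcongr
      _ = T ^ 4 * Real.exp (-(T ^ (1 / 2 : ℝ))) / 2 := by ring
      _ ≤ 1 / T / 2 := by gcongr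
  rw [abs_le] at k1 k2 ⊢
  constructor <;> linarith [k1.1, k1.2, k2.1, k2.2]

/-- the diagonal of a square of a quadratic form with bounded multiplicity. -/
lemma mult_bd {ι : Type*} (S : Finset ι) (b : ι → ℝ) (k : ι → ℕ) (M : ℕ)
    (hM : ∀ i ∈ S, (S.filter (fun j => k i = k j)).card ≤ M) :
    ∑ q ∈ S ×ˢ S, (if k q.1 = k q.2 then b q.1 * b q.2 else 0) ≤ M * ∑ i ∈ S, b i ^ 2 := by
  have h0 : ∑ q ∈ S ×ˢ S, (if k q.1 = k q.2 then b q.1 * b q.2 else 0) ≤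
      ∑ q ∈ S ×ˢ S, ((if k q.1 = k q.2 then b q.1 ^ 2 / 2 else 0) + (if k q.1 = k q.2 then b q.2 ^ 2 / 2 else 0)) := by
    refine Finset.sum_le_sum fun q _ => ?_
    split_ifs
    · nlinarith [sq_nonneg (b q.1 - b q.2)]
    · simp
  refine h0.trans ?_
  rw [Finset.sum_add_distrib]
  have h1 : ∑ q ∈ S ×ˢ S, (if k q.1 = k q.2 then b q.1 ^ 2 / 2 else 0) ≤ M * (∑ i ∈ S, b i ^ 2) / 2 := by
    rw [Finset.sum_product, Finset.mul_sum, Finset.sum_div]
    refine Finset.sum_le_sum fun i hi => ?_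
    simp only
    rw [← Finset.sum_filter, Finset.sum_const, nsmul_eq_mul]
    have := hM i hi
    have h2 : ((S.filter (fun j => k i = k j)).card : ℝ) ≤ M := by exact_mod_cast this
    have h3 : 0 ≤ b i ^ 2 / 2 := by positivity
    calc ((S.filter (fun j => k i = k j)).card : ℝ) * (b i ^ 2 / 2) ≤ M * (b i ^ 2 / 2) := by gcongr
      _ = _ := by ring
  have h2 : ∑ q ∈ S ×ˢ S, (if k q.1 = k q.2 then b q.2 ^ 2 / 2 else 0) =
      ∑ q ∈ S ×ˢ S, (if k q.1 = k q.2 then b q.1 ^ 2 / 2 else 0) := by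
    rw [Finset.sum_product, Finset.sum_product_right]
    refine Finset.sum_congr rfl fun i _ => Finset.sum_congr rfl fun j _ => ?_
    simp only [eq_comm]
  rw [h2]
  linarith

/-- support of the resonator. -/
lemma rr_ne {T c v : ℝ} {n : ℕ} (h : rr T c v n ≠ 0) :
    Squarefree n ∧ n.primeFactors ⊆ PR T c ∧ n.primeFactors.card ≤ KR c := by
  unfold rr at h
  by_contra hc
  exact h (if_neg hc)

/-- multiplicity of a product of two numbers of the support. -/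
lemma mult_le {T c v : ℝ} (S : Finset ℕ) (hS : ∀ n ∈ S, rr T c v n ≠ 0) (i : ℕ × ℕ) (hi : i ∈ S ×ˢ S) :
    ((S ×ˢ S).filter (fun j => i.1 * i.2 = j.1 * j.2)).card ≤ 4 ^ KR c := by
  obtain ⟨hi1, hi2⟩ := Finset.mem_product.mp hi
  obtain ⟨a1, a2, a3⟩ := rr_ne (hS _ hi1)
  obtain ⟨b1, b2, b3⟩ := rr_ne (hS _ hi2)
  have h1 : ((S ×ˢ S).filter (fun j => i.1 * i.2 = j.1 * j.2)).card ≤ ((i.1 * i.2).primeFactors.powerset).card := by
    refine Finset.card_le_card_of_injOn (fun j => j.1.primeFactors) ?_ ?_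
    · intro j hj
      obtain ⟨hj1, hj2⟩ := Finset.mem_filter.mp (Finset.mem_coe.mp hj)
      rw [Finset.mem_coe, Finset.mem_powerset]
      rw [hj2]
      apply Nat.primeFactors_mono (Dvd.intro _ rfl)
      obtain ⟨hk1, hk2⟩ := Finset.mem_product.mp hj1
      exact mul_ne_zero (rr_ne (hS _ hk1)).1.ne_zero (rr_ne (hS _ hk2)).1.ne_zero
    · intro j hj k hk hjk
      obtain ⟨hj1, hj2⟩ := Finset.mem_filter.mp (Finset.mem_coe.mp hj)
      obtain ⟨hk1, hk2⟩ := Finset.mem_filter.mp (Finset.mem_coe.mp hk)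
      have s1 := (rr_ne (hS _ (Finset.mem_product.mp hj1).1)).1
      have s2 := (rr_ne (hS _ (Finset.mem_product.mp hk1).1)).1
      simp only at hjk
      have e1 : j.1 = k.1 := by
        rw [← Nat.prod_primeFactors_of_squarefree s1, ← Nat.prod_primeFactors_of_squarefree s2, hjk]
      have e2 : j.2 = k.2 := by
        have : k.1 * j.2 = k.1 * k.2 := by rw [← e1, ← hj2, hk2, e1]
        exact Nat.eq_of_mul_eq_mul_left (Nat.pos_of_ne_zero s2.ne_zero) this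
      exact Prod.ext e1 e2
  refine h1.trans ?_
  rw [Finset.card_powerset, Nat.primeFactors_mul a1.ne_zero b1.ne_zero]
  calc 2 ^ (i.1.primeFactors ∪ i.2.primeFactors).card ≤ 2 ^ (KR c + KR c) := by
        apply Nat.pow_le_pow_right (by norm_num)
        exact (Finset.card_union_le _ _).trans (add_le_add a3 b3)
    _ = 4 ^ KR c := by rw [pow_add, ← mul_pow]; norm_num

/-- R7: fourth moment, any centre -/
theorem m4_of (hR : Rbd) : ∃ A c0 T0 : ℝ, ∀ T, T0 ≤ T → ∀ c, Adm c0 T c → ∀ v : ℝ, v ^ 2 = c / 100 → ∀ τ : ℝ,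
    Integrable (fun t => PW (WW T) (t - τ) * ‖RR T c v t‖ ^ 4) ∧
    ∫ t, PW (WW T) (t - τ) * ‖RR T c v t‖ ^ 4 ≤ Real.exp (A * c) * VV T c v ^ 2 := by
  classical
  obtain ⟨c0, T0, hR⟩ := hR
  obtain ⟨T1, hT1, hg⟩ := growth
  refine ⟨1, max c0 8, max T0 T1, fun T hT c hc v hv τ => ?_⟩
  have hTT : 1 ≤ T := hT1.trans ((le_max_right _ _).trans hT)
  have hT0' : 0 < T := by linarith
  have hc8 : 8 ≤ c := (le_max_right _ _).trans hc.1
  have hr := hR T ((le_max_left _ _).trans hT) c ⟨(le_max_left _ _).trans hc.1, hc.2⟩ v hv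
  set N := NR T with hN
  have hN1 : 1 ≤ N := one_le_NR hTT
  set S := (Finset.Icc 1 N).filter (fun n => rr T c v n ≠ 0) with hSdef
  have hSr : ∀ n ∈ S, rr T c v n ≠ 0 := fun n hn => (Finset.mem_filter.mp hn).2
  have hS1 : ∀ n ∈ S, 1 ≤ n ∧ n ≤ N := fun n hn => Finset.mem_Icc.mp (Finset.mem_filter.mp hn).1
  set a : ℕ → ℝ := fun m => rr T c v m / √m with ha
  have hsub : ∀ f : ℕ → ℝ, (∀ n, a n = 0 → f n = 0) → ∑ n ∈ Finset.Icc 1 N, f n = ∑ n ∈ S, f n := by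
    intro f hf
    rw [hSdef, Finset.sum_filter]
    refine Finset.sum_congr rfl fun n _ => ?_
    split_ifs with h
    · rfl
    · apply hf
      simp only [ha]
      rw [not_not.mp h, zero_div]
  have hRS : ∀ t, RR T c v t = ∑ n ∈ S, (a n : ℂ) * Complex.exp (((-(t * Real.log n) : ℝ) : ℂ) * Complex.I) := by
    intro t
    rw [RR_eq, hSdef, Finset.sum_filter]
    refine Finset.sum_congr rfl fun n _ => ?_
    split_ifs with h
    · rfl
    · rw [not_not.mp h, zero_div, Complex.ofReal_zero, zero_mul]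
  set S2 := S ×ˢ S with hS2
  have hR4 : ∀ t, ‖RR T c v t‖ ^ 4 = ∑ q ∈ S2 ×ˢ S2, a q.1.1 * a q.1.2 * (a q.2.1 * a q.2.2) *
      Real.cos ((Real.log ((q.1.1 * q.1.2 : ℕ) : ℝ) - Real.log ((q.2.1 * q.2.2 : ℕ) : ℝ)) * t + 0) := by
    intro t
    have h1 : RR T c v t ^ 2 = ∑ i ∈ S2, ((a i.1 * a i.2 : ℝ) : ℂ) *
        Complex.exp (((-(t * Real.log ((i.1 * i.2 : ℕ) : ℝ)) : ℝ) : ℂ) * Complex.I) := by
      rw [sq, hRS, Finset.sum_mul_sum, hS2, Finset.sum_product]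
      refine Finset.sum_congr rfl fun m hm => Finset.sum_congr rfl fun n hn => ?_
      have q1 : (0:ℝ) < m := by exact_mod_cast (hS1 m hm).1
      have q2 : (0:ℝ) < n := by exact_mod_cast (hS1 n hn).1
      simp only
      rw [Nat.cast_mul, Real.log_mul q1.ne' q2.ne']
      have h2 : Complex.exp (((-(t * (Real.log m + Real.log n)) : ℝ) : ℂ) * Complex.I) =
          Complex.exp (((-(t * Real.log m) : ℝ) : ℂ) * Complex.I) * Complex.exp (((-(t * Real.log n) : ℝ) : ℂ) * Complex.I) := by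
        rw [← Complex.exp_add]
        congr 1
        push_cast
        ring
      rw [h2]
      push_cast
      ring
    calc ‖RR T c v t‖ ^ 4 = ‖RR T c v t ^ 2‖ ^ 2 := by rw [norm_pow]; ring
      _ = _ := by
        rw [h1, norm_sq_sum]
        refine Finset.sum_congr rfl fun q _ => ?_
        rw [← Real.cos_neg]
        congr 2
        ring
  have bb : ∀ i ∈ S2, 1 ≤ i.1 * i.2 ∧ i.1 * i.2 ≤ N * N := fun i hi => by
    obtain ⟨h1, h2⟩ := Finset.mem_product.mp hi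
    exact ⟨Nat.mul_pos (hS1 _ h1).1 (hS1 _ h2).1, Nat.mul_le_mul (hS1 _ h1).2 (hS1 _ h2).2⟩
  have hm := mean_cos (S2 ×ˢ S2) (fun q => a q.1.1 * a q.1.2 * (a q.2.1 * a q.2.2)) (fun _ => 0)
    (fun q => q.1.1 * q.1.2) (fun q => q.2.1 * q.2.2) (N := N * N)
    (fun q hq => bb _ (Finset.mem_product.mp hq).1) (fun q hq => bb _ (Finset.mem_product.mp hq).2) (WW_pos hT0') τ
  have e : (fun t => PW (WW T) (t - τ) * ‖RR T c v t‖ ^ 4) = fun t => PW (WW T) (t - τ) *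
      ∑ q ∈ S2 ×ˢ S2, a q.1.1 * a q.1.2 * (a q.2.1 * a q.2.2) *
      Real.cos ((Real.log ((q.1.1 * q.1.2 : ℕ) : ℝ) - Real.log ((q.2.1 * q.2.2 : ℕ) : ℝ)) * t + 0) :=
    funext fun t => by rw [hR4]
  rw [e]
  refine ⟨hm.1, ?_⟩
  have h2 := (abs_le.mp hm.2).2
  have hd : ∑ q ∈ S2 ×ˢ S2, (if q.1.1 * q.1.2 = q.2.1 * q.2.2 then a q.1.1 * a q.1.2 * (a q.2.1 * a q.2.2) * Real.cos 0 else 0) ≤
      (4 ^ KR c : ℕ) * VV T c v ^ 2 := by
    rw [Real.cos_zero]
    simp only [mul_one]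
    refine (mult_bd S2 (fun i => a i.1 * a i.2) (fun i => i.1 * i.2) (4 ^ KR c) (fun i hi => mult_le S hSr i hi)).trans ?_
    refine mul_le_mul_of_nonneg_left (le_of_eq ?_) (by positivity)
    have hV : VV T c v = ∑ n ∈ S, a n ^ 2 := by
      rw [← hsub (fun n => a n ^ 2) (fun n hn => by simp [hn])]
      unfold VV
      refine Finset.sum_congr rfl fun n hn => ?_
      have hn1 : (0:ℝ) < n := by exact_mod_cast (Finset.mem_Icc.mp hn).1
      simp only [ha]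
      rw [div_pow, Real.sq_sqrt hn1.le]
    rw [hV, sq, Finset.sum_mul_sum, hS2, Finset.sum_product]
    exact Finset.sum_congr rfl fun n _ => Finset.sum_congr rfl fun m _ => by ring
  have hs : ∑ q ∈ S2 ×ˢ S2, |a q.1.1 * a q.1.2 * (a q.2.1 * a q.2.2)| ≤ T ^ 4 := by
    have h3 := sumA hTT (fun n => (hr n).1)
    rw [hsub (fun n => |rr T c v n / √n|) (fun n hn => by simp only [ha] at hn; simp [hn])] at h3
    have h4 : 0 ≤ ∑ n ∈ S, |a n| := Finset.sum_nonneg fun _ _ => abs_nonneg _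
    have h5 : ∑ i ∈ S2, |a i.1 * a i.2| = (∑ n ∈ S, |a n|) ^ 2 := by
      rw [sq, Finset.sum_mul_sum, hS2, Finset.sum_product]
      exact Finset.sum_congr rfl fun n _ => Finset.sum_congr rfl fun m _ => abs_mul _ _
    have h6 : ∑ q ∈ S2 ×ˢ S2, |a q.1.1 * a q.1.2 * (a q.2.1 * a q.2.2)| = (∑ i ∈ S2, |a i.1 * a i.2|) ^ 2 := by
      rw [sq, Finset.sum_mul_sum, Finset.sum_product]
      exact Finset.sum_congr rfl fun n _ => Finset.sum_congr rfl fun m _ => abs_mul _ _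
    rw [h6, h5, ← pow_mul]
    exact pow_le_pow_left₀ h4 h3 _
  have hNN : ((N * N : ℕ) : ℝ) ≤ T ^ (1 / 4 : ℝ) := by
    rw [Nat.cast_mul]
    calc (N : ℝ) * N ≤ T ^ (1 / 8 : ℝ) * T ^ (1 / 8 : ℝ) :=
          mul_le_mul (NR_le hT0'.le) (NR_le hT0'.le) (by positivity) (by positivity)
      _ = T ^ (1 / 4 : ℝ) := by rw [← Real.rpow_add hT0']; norm_num
  have h6 := exp_WW hTT (Nat.mul_pos hN1 hN1) hNN
  have h7 := hg T ((le_max_right _ _).trans hT)
  have hV := (hr 0).2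
  have h8 : (∑ q ∈ S2 ×ˢ S2, |a q.1.1 * a q.1.2 * (a q.2.1 * a q.2.2)|) * Real.exp (-(WW T / ((N * N : ℕ) : ℝ))) ≤
      VV T c v ^ 2 := by
    calc _ ≤ T ^ 4 * Real.exp (-(T ^ (1 / 2 : ℝ))) := by gcongr
      _ ≤ 1 / T := h7
      _ ≤ 1 := (div_le_one hT0').mpr hTT
      _ ≤ VV T c v ^ 2 := one_le_pow₀ hV
  have h9 : ((4 ^ KR c : ℕ) : ℝ) ≤ Real.exp (c / 3) := by
    rw [Nat.cast_pow]
    have h10 : (4:ℝ) ≤ Real.exp 2 := by
      have := Real.add_one_le_exp (1:ℝ)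
      have h11 : Real.exp 2 = Real.exp 1 * Real.exp 1 := by rw [← Real.exp_add]; norm_num
      rw [h11]
      nlinarith
    calc (((4:ℕ) : ℝ)) ^ KR c ≤ (Real.exp 2) ^ KR c := by
          apply pow_le_pow_left₀ (by positivity)
          exact_mod_cast h10
      _ = Real.exp (KR c * 2) := by rw [← Real.exp_nat_mul]
      _ ≤ Real.exp (c / 3) := by
          apply Real.exp_le_exp.mpr
          have : (KR c : ℝ) ≤ c / 6 := Nat.floor_le (by linarith)
          linarith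
  have h10 : Real.exp (c / 3) + 1 ≤ Real.exp (1 * c) := by
    have h11 : Real.exp (1 * c) = Real.exp (c / 3) * Real.exp (2 * c / 3) := by
      rw [← Real.exp_add]
      congr 1
      ring
    have h12 := Real.add_one_le_exp (2 * c / 3)
    have h13 := Real.one_le_exp (show 0 ≤ c / 3 by linarith)
    rw [h11]
    nlinarith
  have hVsq : 0 ≤ VV T c v ^ 2 := by positivity
  have h11 : ((4 ^ KR c : ℕ) : ℝ) * VV T c v ^ 2 ≤ Real.exp (c / 3) * VV T c v ^ 2 := by gcongr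
  have h12 : (Real.exp (c / 3) + 1) * VV T c v ^ 2 ≤ Real.exp (1 * c) * VV T c v ^ 2 := by gcongr
  linarith

end Pool.Agent.Helper60.UG
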