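import Pool.Agent.Helper93.UG.ToMeas

/-!
# UG R1, R2: support and size of the resonator
-/

set_option autoImplicit false
open MeasureTheory Set Filter Topology
open Pool.Agent.Helper57.Zeta Pool.Agent.Helper57.LH Pool.Agent.Helper57.ED Pool.Agent.Helper54.LG
open Pool.Agent.Helper69.UG

namespace Pool.Agent.Helper60.UG

/-- R1 -/
theorem rr_supp {T c v : ℝ} (hT : 1 ≤ T) (hc : 0 < c) {n : ℕ} (h : rr T c v n ≠ 0) :
    1 ≤ n ∧ n ≤ NR T ∧ Squarefree n := by
  unfold rr at h
  have h' : Squarefree n ∧ n.primeFactors ⊆ PR T c ∧ n.primeFactors.card ≤ KR c := by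
    by_contra hcon
    exact h (if_neg hcon)
  obtain ⟨h1, h2, h3⟩ := h'
  have hT0 : 0 < T := by linarith
  refine ⟨Nat.one_le_iff_ne_zero.mpr h1.ne_zero, ?_, h1⟩
  unfold NR
  apply Nat.le_floor
  have e : (n : ℝ) = ∏ p ∈ n.primeFactors, (p : ℝ) := by
    conv_lhs => rw [← Nat.prod_primeFactors_of_squarefree h1]
    push_cast
    rfl
  rw [e]
  have hb : ∀ p ∈ n.primeFactors, (p : ℝ) ≤ T ^ (3 / (4 * c)) := by
    intro p hp
    have h4 := h2 hp
    unfold PR at h4
    have h5 := Finset.mem_range.mp (Finset.mem_filter.mp h4).1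
    have h6 : p ≤ ⌊T ^ (3 / (4 * c))⌋₊ := by omega
    exact (Nat.le_floor_iff (by positivity)).mp h6
  have hone : 1 ≤ T ^ (3 / (4 * c)) := Real.one_le_rpow hT (by positivity)
  calc ∏ p ∈ n.primeFactors, (p : ℝ) ≤ ∏ _p ∈ n.primeFactors, T ^ (3 / (4 * c)) :=
        Finset.prod_le_prod (fun p _ => by positivity) hb
    _ = (T ^ (3 / (4 * c))) ^ n.primeFactors.card := by rw [Finset.prod_const]
    _ ≤ (T ^ (3 / (4 * c))) ^ KR c := pow_le_pow_right₀ hone h3
    _ = T ^ (3 / (4 * c) * KR c) := by rw [← Real.rpow_natCast, ← Real.rpow_mul hT0.le]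
    _ ≤ T ^ (1 / 8 : ℝ) := by
        apply Real.rpow_le_rpow_of_exponent_le hT
        have h7 : (KR c : ℝ) ≤ c / 6 := Nat.floor_le (by positivity)
        calc 3 / (4 * c) * KR c ≤ 3 / (4 * c) * (c / 6) := by gcongr
          _ = 1 / 8 := by field_simp; norm_num

/-- R2 -/
theorem rr_bd : ∃ c0 T0 : ℝ, ∀ T, T0 ≤ T → ∀ c, Adm c0 T c → ∀ v : ℝ, v ^ 2 = c / 100 → ∀ n,
    |rr T c v n| ≤ T ^ (1 / 192 : ℝ) ∧ 1 ≤ VV T c v := by
  refine ⟨1, Real.exp (Real.exp 1), fun T hT c hc v hv n => ?_⟩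
  have hTe : 0 < T := (Real.exp_pos _).trans_le hT
  have hL : Real.exp 1 ≤ Real.log T := (Real.le_log_iff_exp_le hTe).mpr hT
  have hL0 : 0 < Real.log T := (Real.exp_pos _).trans_le hL
  have hLL : 1 ≤ Real.log (Real.log T) := (Real.le_log_iff_exp_le hL0).mpr hL
  have hT1 : 1 ≤ T := by
    have := Real.one_le_exp (Real.exp_pos 1).le
    linarith
  have hc1 := hc.1
  have hc2 := hc.2
  have hc0 : 0 < c := by linarith
  refine ⟨?_, Pool.Agent.Helper93.UG.one_le_VV hT1 v⟩
  have hone : 1 ≤ T ^ (1 / 192 : ℝ) := Real.one_le_rpow hT1 (by norm_num)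
  unfold rr
  split_ifs with h
  · obtain ⟨h1, h2, h3⟩ := h
    rw [abs_pow]
    rcases le_total |v| 1 with hv1 | hv1
    · exact (pow_le_one₀ (abs_nonneg _) hv1).trans hone
    · have h4 : |v| ^ n.primeFactors.card ≤ |v| ^ KR c := pow_le_pow_right₀ hv1 h3
      refine h4.trans ?_
      have h5 : c ≤ Real.log T := by nlinarith
      have h6 : |v| ^ 2 ≤ Real.log T := by
        rw [sq_abs, hv]
        linarith
      have hv0 : 0 < |v| := by linarith
      have h7 : 2 * Real.log |v| ≤ Real.log (Real.log T) := by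
        have := Real.log_le_log (by positivity) h6
        rw [Real.log_pow] at this
        exact_mod_cast this
      have h8 : 0 ≤ Real.log |v| := Real.log_nonneg hv1
      have h9 : (KR c : ℝ) ≤ c / 6 := Nat.floor_le (by positivity)
      rw [Real.rpow_def_of_pos hTe, ← Real.exp_log (pow_pos hv0 (KR c)), Real.log_pow]
      apply Real.exp_le_exp.mpr
      calc (KR c : ℝ) * Real.log |v| ≤ c / 6 * Real.log |v| := by gcongr
        _ ≤ c / 6 * (Real.log (Real.log T) / 2) := by gcongr; linarith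
        _ = c * Real.log (Real.log T) / 12 := by ring
        _ ≤ Real.log T / 16 / 12 := by gcongr
        _ = Real.log T * (1 / 192) := by ring
  · rw [abs_zero]
    linarith

end Pool.Agent.Helper60.UG
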