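import Pool.Agent.Helper60.UG.R789
import Pool.Agent.Helper60.UG.Rb

/-!
# UG R1, R2, R7, R8, R9: final forms
-/

set_option autoImplicit false
open MeasureTheory Set Filter Topology
open Pool.Agent.Helper57.Zeta Pool.Agent.Helper57.LH Pool.Agent.Helper57.ED Pool.Agent.Helper54.LG
open Pool.Agent.Helper69.UG

namespace Pool.Agent.Helper60.UG

/-- R7: fourth moment, any centre -/
theorem m4 : ∃ A c0 T0 : ℝ, ∀ T, T0 ≤ T → ∀ c, Adm c0 T c → ∀ v : ℝ, v ^ 2 = c / 100 → ∀ τ : ℝ,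
    Integrable (fun t => PW (WW T) (t - τ) * ‖RR T c v t‖ ^ 4) ∧
    ∫ t, PW (WW T) (t - τ) * ‖RR T c v t‖ ^ 4 ≤ Real.exp (A * c) * VV T c v ^ 2 := m4_of rr_bd

/-- R8: mass -/
theorem wmass : ∃ c0 T0 : ℝ, ∀ T, T0 ≤ T → ∀ c, Adm c0 T c → ∀ v : ℝ, v ^ 2 = c / 100 → ∀ τ : ℝ,
    Integrable (wt T c v τ) ∧ |(∫ t, wt T c v τ t) - VV T c v| ≤ VV T c v / T := wmass_of rr_bd

/-- R9: mean of a cosine -/
theorem ecos : ∃ c0 T0 : ℝ, ∀ T, T0 ≤ T → ∀ c, Adm c0 T c → ∀ v : ℝ, v ^ 2 = c / 100 → ∀ τ u : ℝ, ∀ n : ℕ,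
    IsPrimePow n → (n : ℝ) ≤ Real.exp (XX T c) →
    |(∫ t, wt T c v τ t * Real.cos ((t + u) * Real.log n)) -
      (if n ∈ PR T c then Pool.Agent.Helper69.UG.WP T c v n / √n * Real.cos (u * Real.log n) else 0)| ≤ 1 / T :=
  ecos_of rr_bd rr_supp

end Pool.Agent.Helper60.UG
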