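import Pool.Agent.Helper54.LG.Cos

/-!
# UG-MEAN: Poisson means of finite sums of cosines
-/

set_option autoImplicit false
open MeasureTheory Set Filter Topology
open Pool.Agent.Helper57.Zeta Pool.Agent.Helper57.LH Pool.Agent.Helper57.ED Pool.Agent.Helper54.LG

namespace Pool.Agent.Helper60.UG

/-- mean of a cosine with a phase. -/
theorem int_cos_phase {W : ℝ} (hW : 0 < W) (τ ω φ : ℝ) :
    Integrable (fun t => PW W (t - τ) * Real.cos (ω * t + φ)) ∧
    ∫ t, PW W (t - τ) * Real.cos (ω * t + φ) = Real.exp (-(W * |ω|)) * Real.cos (ω * τ + φ) := by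
  have hPi : Integrable fun t => PW W (t - τ) := (integral_PW hW).1.comp_sub_right τ
  have hi : Integrable fun t : ℝ => (PW W (t - τ) : ℂ) * Complex.exp (Complex.I * ((ω * t : ℝ) : ℂ)) := by
    refine Integrable.mul_bdd (c := 1) hPi.ofReal ?_ ?_
    · apply Continuous.aestronglyMeasurable
      fun_prop
    · exact Eventually.of_forall fun t => by
        rw [mul_comm, Complex.norm_exp_ofReal_mul_I]
  have h := congrArg (fun z : ℂ => (z * Complex.exp (Complex.I * ((φ : ℝ) : ℂ))).re) (integral_cexp hW τ ω)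
  rw [← integral_mul_const] at h
  have hi2 := hi.mul_const (Complex.exp (Complex.I * ((φ : ℝ) : ℂ)))
  have h1 := Complex.reCLM.integral_comp_comm hi2
  simp only [Complex.reCLM_apply] at h1
  rw [← h1] at h
  have e1 : ∀ t : ℝ, ((PW W (t - τ) : ℂ) * Complex.exp (Complex.I * ((ω * t : ℝ) : ℂ)) *
      Complex.exp (Complex.I * ((φ : ℝ) : ℂ))).re = PW W (t - τ) * Real.cos (ω * t + φ) := by
    intro t
    rw [mul_assoc, ← Complex.exp_add, ← mul_add, ← Complex.ofReal_add, Complex.re_ofReal_mul, mul_comm Complex.I,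
      Complex.exp_ofReal_mul_I_re]
  have e2 : ((Real.exp (-(W * |ω|)) : ℂ) * Complex.exp (Complex.I * ((ω * τ : ℝ) : ℂ)) *
      Complex.exp (Complex.I * ((φ : ℝ) : ℂ))).re = Real.exp (-(W * |ω|)) * Real.cos (ω * τ + φ) := by
    rw [mul_assoc, ← Complex.exp_add, ← mul_add, ← Complex.ofReal_add, Complex.re_ofReal_mul, mul_comm Complex.I,
      Complex.exp_ofReal_mul_I_re]
  simp_rw [e1] at h
  rw [e2] at h
  refine ⟨?_, h⟩
  have h3 := hi2.re
  refine h3.congr (Eventually.of_forall fun t => ?_)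
  exact e1 t

/-- different integers have different logarithms. -/
lemma log_gap {x y N : ℕ} (hx : 1 ≤ x) (hxN : x ≤ N) (hy : 1 ≤ y) (hyN : y ≤ N) (hne : x ≠ y) :
    1 / (N : ℝ) ≤ |Real.log x - Real.log y| := by
  wlog hlt : x < y with H
  · rw [abs_sub_comm]
    exact H hy hyN hx hxN hne.symm (by omega)
  have hxR : (0:ℝ) < x := by exact_mod_cast hx
  have hyR : (0:ℝ) < y := by exact_mod_cast hy
  have hNR : (0:ℝ) < N := by exact_mod_cast (by omega : 0 < N)
  have h1 : Real.log (x / y) ≤ x / y - 1 := Real.log_le_sub_one_of_pos (by positivity)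
  rw [Real.log_div hxR.ne' hyR.ne'] at h1
  have h2 : (x:ℝ) / y - 1 ≤ -(1 / N) := by
    have h3 : (x:ℝ) + 1 ≤ y := by exact_mod_cast hlt
    have h4 : (x:ℝ) / y - 1 = -((y - x) / y) := by field_simp; ring
    rw [h4]
    apply neg_le_neg
    rw [div_le_div_iff₀ hNR hyR]
    have h5 : (y:ℝ) ≤ N := by exact_mod_cast hyN
    nlinarith
  rw [abs_sub_comm]
  refine le_trans ?_ (le_abs_self _)
  linarith

/-- Poisson mean of a finite sum of cosines `cos (t log (x/y) + φ)`, `x, y ≤ N`: the terms with `x = y` remain. -/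
theorem mean_cos {ι : Type*} (S : Finset ι) (A φ : ι → ℝ) (x y : ι → ℕ) {N : ℕ}
    (hx : ∀ i ∈ S, 1 ≤ x i ∧ x i ≤ N) (hy : ∀ i ∈ S, 1 ≤ y i ∧ y i ≤ N) {W : ℝ} (hW : 0 < W) (τ : ℝ) :
    Integrable (fun t => PW W (t - τ) * ∑ i ∈ S, A i * Real.cos ((Real.log (x i) - Real.log (y i)) * t + φ i)) ∧
    |(∫ t, PW W (t - τ) * ∑ i ∈ S, A i * Real.cos ((Real.log (x i) - Real.log (y i)) * t + φ i)) -
      ∑ i ∈ S, (if x i = y i then A i * Real.cos (φ i) else 0)| ≤ (∑ i ∈ S, |A i|) * Real.exp (-(W / N)) := by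
  have hint : ∀ i ∈ S, Integrable (fun t => A i * (PW W (t - τ) *
      Real.cos ((Real.log (x i) - Real.log (y i)) * t + φ i))) := fun i _ =>
    (int_cos_phase hW τ _ _).1.const_mul _
  have e0 : (fun t => PW W (t - τ) * ∑ i ∈ S, A i * Real.cos ((Real.log (x i) - Real.log (y i)) * t + φ i)) =
      fun t => ∑ i ∈ S, A i * (PW W (t - τ) * Real.cos ((Real.log (x i) - Real.log (y i)) * t + φ i)) := by
    funext t
    rw [Finset.mul_sum]
    exact Finset.sum_congr rfl fun i _ => by ring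
  rw [e0]
  refine ⟨integrable_finsetSum _ hint, ?_⟩
  rw [integral_finsetSum _ hint, ← Finset.sum_sub_distrib, Finset.sum_mul]
  refine (Finset.abs_sum_le_sum_abs _ _).trans (Finset.sum_le_sum fun i hi => ?_)
  rw [integral_const_mul, (int_cos_phase hW τ _ _).2]
  by_cases h : x i = y i
  · rw [if_pos h, h, sub_self, abs_zero, mul_zero, neg_zero, Real.exp_zero, zero_mul, zero_add, one_mul, sub_self,
      abs_zero]
    positivity
  · rw [if_neg h, sub_zero, abs_mul, abs_mul, abs_of_pos (Real.exp_pos _)]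
    have h1 := log_gap (hx i hi).1 (hx i hi).2 (hy i hi).1 (hy i hi).2 h
    have h2 : Real.exp (-(W * |Real.log (x i) - Real.log (y i)|)) ≤ Real.exp (-(W / N)) := by
      apply Real.exp_le_exp.mpr
      apply neg_le_neg
      rw [div_eq_mul_one_div]
      exact mul_le_mul_of_nonneg_left h1 hW.le
    have h3 := Real.abs_cos_le_one ((Real.log (x i) - Real.log (y i)) * τ + φ i)
    calc |A i| * (Real.exp (-(W * |Real.log (x i) - Real.log (y i)|)) *
          |Real.cos ((Real.log (x i) - Real.log (y i)) * τ + φ i)|) ≤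
        |A i| * (Real.exp (-(W / N)) * 1) := by gcongr
      _ = _ := by ring

end Pool.Agent.Helper60.UG
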